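import Mathlib
import Pool.Agent.H584R3.ZDefs
import Pool.Agent.H584R3.Z7

/-!
# A `𝒵`-stable simple purely infinite C*-algebra that is not `𝒪_∞`-stable

`MP_37a859_an`, Q1 (negated form).  The definitions are in `Pool/Agent/H584R3/ZDefs.lean` and
`Pool/Agent/H584R3/BuDefs.lean`.  Unital C*-algebras are taken as norm closed unital `*`-algebras
of operators on Hilbert spaces `ℓ²(X)`, and the tensor product is the spatial one.  The
Jiang–Su algebra is characterised, following Winter, as the initial strongly self-absorbing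
C*-algebra; it is represented so that a basis vector induces its trace.
-/

namespace Pool.Agent.Results.MP_37a859_an.NonSeparable

open H584BuDefs H584ZDefs

/-- If `Z` is the Jiang–Su algebra, then there is a unital simple purely infinite C*-algebra `B`
with `B ⊗ Z ≅ B` and `B ⊗ 𝒪_∞ ≇ B`. -/
theorem result (X : Type) (x₀ : X) (Z : Set (Op X)) (hZ : IsJiangSu Z) (hx : IsTraceVec Z x₀) :
    ∃ (Y : Type) (B : Set (Op Y)), IsCAlg B ∧ IsNontriv B ∧ IsSimpleAlg B ∧ IsPurelyInf B ∧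
      Isom (tens B Z) B ∧
      ∀ (W : Type) (O : Set (Op W)), IsCuntzInf O → ¬ Isom (tens B O) B := by
  classical
  refine ⟨H584Z.MM ℝ x₀, H584Z.BB ℝ x₀ Z, H584Z.BB_calg x₀ hZ.ssa.calg, ?_,
    H584Z.BB_simple x₀ hZ.ssa.calg hZ.flip, H584Z.BB_pi x₀ hZ.ssa.calg hZ.flip,
    H584Z.BB_absorb x₀ hZ.ssa.calg, ?_⟩
  · refine ⟨H584Z.Li x₀ (0 : ℝ), H584Z.Li_mem x₀ (Set.mem_univ _), fun c h => ?_⟩
    have h1 := congrArg (fun T => H584Roe.entry T
      (([(0 : ℝ)], H584Z.y0 x₀) : H584Z.MM ℝ x₀) (([], H584Z.y0 x₀) : H584Z.MM ℝ x₀)) h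
    simp only [H584Z.Li_entry, H584Bu.entry_smul, H584Bu.entry_one] at h1
    simp at h1
  · rintro W O ⟨s, hs, rfl⟩
    exact H584Z.no_iso x₀ hZ.ssa.calg hx hs

end Pool.Agent.Results.MP_37a859_an.NonSeparable
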